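import Mathlib

set_option autoImplicit false

/-!
Finite subgroups of cactus groups: for n = 10 the group J_10 has a finite subgroup of order 256
(it maps isomorphically onto a Sylow 2-subgroup of the symmetric group of degree 10), whereas all
the groups W(r_1, ..., r_s) with all r_k at least 2 and product at most 5 have order at most 128.
-/

namespace Pool.Agent.Results.MP_2b0b8a_al.CactusTen

/-! ### Cactus groups -/

/-- The index set of the generators of the cactus group: pairs `p < q` in `{1, ..., n}`. -/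
abbrev Idx (n : ℕ) : Type := {x : ℕ × ℕ // 1 ≤ x.1 ∧ x.1 < x.2 ∧ x.2 ≤ n}

/-- The defining relators of the cactus group. -/
inductive IsRel (n : ℕ) : FreeGroup (Idx n) → Prop
  /-- `s_{p,q}^2 = 1` -/
  | sq (a : Idx n) : IsRel n (FreeGroup.of a * FreeGroup.of a)
  /-- `s_{p,q} s_{m,r} = s_{m,r} s_{p,q}` if `[p,q]` and `[m,r]` are disjoint -/
  | comm (a b : Idx n) (h : a.1.2 < b.1.1 ∨ b.1.2 < a.1.1) :
      IsRel n (FreeGroup.of a * FreeGroup.of b * (FreeGroup.of b * FreeGroup.of a)⁻¹)
  /-- `s_{p,q} s_{m,r} = s_{p+q-r,p+q-m} s_{p,q}` if `[m,r]` is contained in `[p,q]` -/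
  | flip (a b c : Idx n) (h1 : a.1.1 ≤ b.1.1) (h2 : b.1.2 ≤ a.1.2)
      (h3 : c.1.1 + b.1.2 = a.1.1 + a.1.2) (h4 : c.1.2 + b.1.1 = a.1.1 + a.1.2) :
      IsRel n (FreeGroup.of a * FreeGroup.of b * (FreeGroup.of c * FreeGroup.of a)⁻¹)

/-- The cactus group `J_n`. -/
abbrev J (n : ℕ) : Type := PresentedGroup {w | IsRel n w}

/-- The generators of the cactus group. -/
def s {n : ℕ} (a : Idx n) : J n := PresentedGroup.of a

/-! ### The groups `W(r_1, ..., r_s)` -/

/-- Reversal of the coordinates as an automorphism of `A^r`. -/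
def rev (A : Type) [Group A] (r : ℕ) : MulAut (Fin r → A) where
  toFun f := fun i => f i.rev
  invFun f := fun i => f i.rev
  left_inv f := by funext i; simp
  right_inv f := by funext i; simp
  map_mul' f g := rfl

theorem rev_mul_rev (A : Type) [Group A] (r : ℕ) : rev A r * rev A r = 1 := by
  ext f i
  simp [rev]

/-- The action of `ℤ/2ℤ` on `A^r` in which the nontrivial element reverses the coordinates. -/
def revHom (A : Type) [Group A] (r : ℕ) : Multiplicative (ZMod 2) →* MulAut (Fin r → A) where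
  toFun x := if x = 1 then 1 else rev A r
  map_one' := by simp
  map_mul' := by
    have key : ∀ x y : Multiplicative (ZMod 2),
        (x = 1 ∧ y = 1 ∧ x * y = 1) ∨ (x = 1 ∧ y ≠ 1 ∧ x * y ≠ 1) ∨
        (x ≠ 1 ∧ y = 1 ∧ x * y ≠ 1) ∨ (x ≠ 1 ∧ y ≠ 1 ∧ x * y = 1) := by decide
    intro x y
    rcases key x y with ⟨h1, h2, h3⟩ | ⟨h1, h2, h3⟩ | ⟨h1, h2, h3⟩ | ⟨h1, h2, h3⟩
    · simp [h1, h2]
    · simp [h1, h2]
    · simp [h1, h2]
    · simp only [h1, h2, h3, if_true, if_false]
      rw [rev_mul_rev]

/-- `A ≀_r ℤ/2ℤ`, the semidirect product of `A^r` by `ℤ/2ℤ` acting by reversal. -/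
abbrev Wr (A : Type) [Group A] (r : ℕ) : Type :=
  (Fin r → A) ⋊[revHom A r] Multiplicative (ZMod 2)

/-- `W(r_1, ..., r_s)` for the list `[r_1, ..., r_s]`. -/
def W (l : List ℕ) : GrpCat.{0} :=
  l.foldl (fun A r => GrpCat.of (Wr A r)) (GrpCat.of (Multiplicative (ZMod 2)))

/-! ### The orders of the groups `W` -/

/-- The binary logarithm of the order of `W`. -/
def ee (l : List ℕ) : ℕ := l.foldl (fun e r => r * e + 1) 1

theorem card_W (l : List ℕ) : Nat.card (W l) = 2 ^ ee l := by
  induction l using List.reverseRecOn with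
  | nil => simp [W, ee]
  | append_singleton l r ih =>
    have h1 : W (l ++ [r]) = GrpCat.of (Wr (W l) r) := by rw [W, List.foldl_append]; rfl
    have h2 : ee (l ++ [r]) = r * ee l + 1 := by simp [ee, List.foldl_append]
    rw [h1, h2]
    have h3 : Nat.card (Wr (W l) r) = Nat.card ((Fin r → W l) × Multiplicative (ZMod 2)) :=
      Nat.card_congr SemidirectProduct.equivProd
    change Nat.card (Wr (W l) r) = _
    rw [h3, Nat.card_prod, Nat.card_pi]
    simp [ih, pow_succ, ← pow_mul, mul_comm]

theorem ee_le_two (l : List ℕ) (h : ∀ r ∈ l, 2 ≤ r) : ee l + 1 ≤ 2 * l.prod := by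
  induction l using List.reverseRecOn with
  | nil => simp [ee]
  | append_singleton l r ih =>
    have h2 : ee (l ++ [r]) = r * ee l + 1 := by simp [ee, List.foldl_append]
    have h3 : (l ++ [r]).prod = l.prod * r := by simp
    have ih' := ih (fun x hx => h x (by simp [hx]))
    have hr : 2 ≤ r := h r (by simp)
    rw [h2, h3]
    nlinarith

theorem ee_le_three (l : List ℕ) (h : ∀ r ∈ l, 3 ≤ r) : 2 * ee l + 1 ≤ 3 * l.prod := by
  induction l using List.reverseRecOn with
  | nil => simp [ee]
  | append_singleton l r ih =>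
    have h2 : ee (l ++ [r]) = r * ee l + 1 := by simp [ee, List.foldl_append]
    have h3 : (l ++ [r]).prod = l.prod * r := by simp
    have ih' := ih (fun x hx => h x (by simp [hx]))
    have hr : 3 ≤ r := h r (by simp)
    rw [h2, h3]
    nlinarith

theorem ee_le (l : List ℕ) (h : ∀ r ∈ l, 2 ≤ r) (hp : l.prod ≤ 5) : ee l ≤ 7 := by
  by_cases h4 : l.prod ≤ 4
  · have := ee_le_two l h
    omega
  · have h5 : l.prod = 5 := by omega
    have h3 : ∀ r ∈ l, 3 ≤ r := by
      intro r hr
      have h2 := h r hr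
      have hd : r ∣ 5 := by rw [← h5]; exact List.dvd_prod hr
      by_contra hlt
      have : r = 2 := by omega
      subst this
      omega
    have := ee_le_three l h3
    omega

/-! ### The action of `J_10` on ten points -/

/-- The reversal of the interval `[p,q]`, as a self-map of the natural numbers. -/
def flipFun (p q x : ℕ) : ℕ := if p ≤ x ∧ x ≤ q then p + q - x else x

theorem flipFun_invol (p q x : ℕ) : flipFun p q (flipFun p q x) = x := by
  unfold flipFun
  split_ifs <;> omega

/-- The reversal of the interval `[p,q]`, as a permutation of the natural numbers. -/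
def flipPerm (p q : ℕ) : Equiv.Perm ℕ where
  toFun := flipFun p q
  invFun := flipFun p q
  left_inv := flipFun_invol p q
  right_inv := flipFun_invol p q

/-- The homomorphism from the cactus group to permutations. -/
def piHom (n : ℕ) : J n →* Equiv.Perm ℕ :=
  PresentedGroup.toGroup (f := fun a : Idx n => flipPerm a.1.1 a.1.2) (by
    intro w hw
    induction hw with
    | sq a =>
      simp only [map_mul, FreeGroup.lift_apply_of]
      ext x
      simp [flipPerm, flipFun_invol]
    | comm a b h =>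
      simp only [map_mul, map_inv, FreeGroup.lift_apply_of]
      rw [mul_inv_eq_one]
      ext x
      have ha := a.2
      have hb := b.2
      simp only [Equiv.Perm.coe_mul, Function.comp_apply, flipPerm, Equiv.coe_fn_mk, flipFun]
      split_ifs <;> omega
    | flip a b c h1 h2 h3 h4 =>
      simp only [map_mul, map_inv, FreeGroup.lift_apply_of]
      rw [mul_inv_eq_one]
      ext x
      have ha := a.2
      have hb := b.2
      have hc := c.2
      simp only [Equiv.Perm.coe_mul, Function.comp_apply, flipPerm, Equiv.coe_fn_mk, flipFun]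
      split_ifs <;> omega)

theorem piHom_s {n : ℕ} (a : Idx n) : piHom n (s a) = flipPerm a.1.1 a.1.2 :=
  PresentedGroup.toGroup.of _

/-! ### Relations -/

theorem s_sq {n : ℕ} (a : Idx n) : s a * s a = 1 := by
  exact PresentedGroup.one_of_mem (rels := {w | IsRel n w}) (IsRel.sq a)

theorem s_comm {n : ℕ} (a b : Idx n) (h : a.1.2 < b.1.1 ∨ b.1.2 < a.1.1) :
    s a * s b * (s a)⁻¹ = s b := by
  have h' : s a * s b * (s b * s a)⁻¹ = 1 :=
    PresentedGroup.one_of_mem (rels := {w | IsRel n w}) (IsRel.comm a b h)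
  rw [mul_inv_eq_one] at h'
  rw [h', mul_inv_cancel_right]

theorem s_flip {n : ℕ} (a b c : Idx n) (h1 : a.1.1 ≤ b.1.1) (h2 : b.1.2 ≤ a.1.2)
    (h3 : c.1.1 + b.1.2 = a.1.1 + a.1.2) (h4 : c.1.2 + b.1.1 = a.1.1 + a.1.2) :
    s a * s b * (s a)⁻¹ = s c := by
  have h' : s a * s b * (s c * s a)⁻¹ = 1 :=
    PresentedGroup.one_of_mem (rels := {w | IsRel n w}) (IsRel.flip a b c h1 h2 h3 h4)
  rw [mul_inv_eq_one] at h'
  rw [h', mul_inv_cancel_right]

/-! ### Adding one involution at a time -/

section Step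

variable {G : Type} [Group G]

/-- The union of a subgroup and one of its cosets, as a subgroup. -/
def ext (K : Subgroup G) (x : G) (hx : x * x = 1) (hK : ∀ k ∈ K, x * k * x⁻¹ ∈ K) :
    Subgroup G where
  carrier := {g | g ∈ K ∨ x * g ∈ K}
  one_mem' := Or.inl K.one_mem
  mul_mem' := by
    have hxi : x⁻¹ = x := inv_eq_of_mul_eq_one_left hx
    rintro a b (ha | ha) (hb | hb)
    · exact Or.inl (K.mul_mem ha hb)
    · refine Or.inr ?_
      have := K.mul_mem (hK a ha) hb
      simpa [mul_assoc] using this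
    · refine Or.inr ?_
      have := K.mul_mem ha hb
      simpa [mul_assoc] using this
    · refine Or.inl ?_
      have h1 := hK _ ha
      have := K.mul_mem h1 hb
      rw [hxi] at this
      have e : x * (x * a) * x * (x * b) = a * b := by
        calc x * (x * a) * x * (x * b) = (x * x) * a * (x * x) * b := by group
          _ = a * b := by rw [hx]; group
      rwa [e] at this
  inv_mem' := by
    have hxi : x⁻¹ = x := inv_eq_of_mul_eq_one_left hx
    rintro a (ha | ha)
    · exact Or.inl (K.inv_mem ha)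
    · refine Or.inr ?_
      have h1 := hK _ (K.inv_mem ha)
      rw [hxi] at h1
      have e : x * (x * a)⁻¹ * x = x * a⁻¹ := by
        rw [mul_inv_rev, hxi]
        calc x * (a⁻¹ * x) * x = x * a⁻¹ * (x * x) := by group
          _ = x * a⁻¹ := by rw [hx]; group
      rwa [e] at h1

theorem step (φ : G →* Equiv.Perm ℕ) (S : Set G) (x : G) (hx : x * x = 1)
    (hconj : ∀ y ∈ S, x * y * x⁻¹ ∈ S) (f : ℕ → ℕ)
    (hS : ∀ y ∈ S, ∀ i, f (φ y i) = f i) (hxf : ∃ i, f (φ x i) ≠ f i)
    (hfin : Finite (Subgroup.closure S)) :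
    Finite (Subgroup.closure (insert x S)) ∧
      2 * Nat.card (Subgroup.closure S) ≤ Nat.card (Subgroup.closure (insert x S)) := by
  set K := Subgroup.closure S with hKdef
  have hK : ∀ k ∈ K, x * k * x⁻¹ ∈ K := by
    intro k hk
    induction hk using Subgroup.closure_induction with
    | mem y hy => exact Subgroup.subset_closure (hconj y hy)
    | one => simp [K.one_mem]
    | mul a b _ _ ha hb =>
      have := K.mul_mem ha hb
      have e : x * a * x⁻¹ * (x * b * x⁻¹) = x * (a * b) * x⁻¹ := by group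
      rwa [e] at this
    | inv a _ ha =>
      have := K.inv_mem ha
      have e : (x * a * x⁻¹)⁻¹ = x * a⁻¹ * x⁻¹ := by group
      rwa [e] at this
  have hle : Subgroup.closure (insert x S) ≤ ext K x hx hK := by
    rw [Subgroup.closure_le]
    intro y hy
    rcases hy with rfl | hy
    · exact Or.inr (by rw [hx]; exact K.one_mem)
    · exact Or.inl (Subgroup.subset_closure hy)
  have hfinE : Finite (ext K x hx hK) := by
    have h1 : ((ext K x hx hK : Subgroup G) : Set G) ⊆
        (K : Set G) ∪ (fun g => x⁻¹ * g) '' (K : Set G) := by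
      rintro g (hg | hg)
      · exact Or.inl hg
      · exact Or.inr ⟨x * g, hg, by simp⟩
    have h2 : (K : Set G).Finite := Set.toFinite _
    exact ((h2.union (h2.image _)).subset h1).to_subtype
  have hfin' : Finite (Subgroup.closure (insert x S)) :=
    Finite.of_injective (Subgroup.inclusion hle) (Subgroup.inclusion_injective hle)
  refine ⟨hfin', ?_⟩
  have hKle : K ≤ Subgroup.closure (insert x S) :=
    Subgroup.closure_mono (Set.subset_insert x S)
  have hinv : ∀ k ∈ K, ∀ i, f (φ k i) = f i := by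
    intro k hk
    induction hk using Subgroup.closure_induction with
    | mem y hy => exact hS y hy
    | one => simp
    | mul a b _ _ ha hb =>
      intro i
      rw [map_mul, Equiv.Perm.mul_apply, ha, hb]
    | inv a _ ha =>
      intro i
      have := ha ((φ a⁻¹) i)
      rw [← this, ← Equiv.Perm.mul_apply, ← map_mul, mul_inv_cancel, map_one]
      rfl
  have hxK : x ∉ K := by
    intro hxK
    obtain ⟨i, hi⟩ := hxf
    exact hi (hinv x hxK i)
  have hxm : x ∈ Subgroup.closure (insert x S) :=
    Subgroup.subset_closure (Set.mem_insert x S)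
  have hdvd := Subgroup.card_dvd_of_le hKle
  obtain ⟨c, hc⟩ := hdvd
  have hcpos : 0 < Nat.card (Subgroup.closure (insert x S)) := Nat.card_pos
  have hc0 : c ≠ 0 := by rintro rfl; simp at hc; omega
  have hc1 : c ≠ 1 := by
    rintro rfl
    have heq : K = Subgroup.closure (insert x S) :=
      Subgroup.eq_of_le_of_card_ge hKle (by rw [hc, mul_one])
    exact hxK (heq ▸ hxm)
  rw [hc, mul_comm]
  exact Nat.mul_le_mul_left _ (by omega)

end Step

/-! ### The subgroup of `J_10` -/

/-- Generators of `J_10`. -/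
def g (p q : ℕ) (h : 1 ≤ p ∧ p < q ∧ q ≤ 10) : J 10 := s ⟨(p, q), h⟩

theorem g_sq (p q : ℕ) (h : 1 ≤ p ∧ p < q ∧ q ≤ 10) : g p q h * g p q h = 1 := s_sq _

theorem g_comm (p q : ℕ) (h : 1 ≤ p ∧ p < q ∧ q ≤ 10) (m r : ℕ)
    (h' : 1 ≤ m ∧ m < r ∧ r ≤ 10) (hd : q < m ∨ r < p) :
    g p q h * g m r h' * (g p q h)⁻¹ = g m r h' := s_comm _ _ hd

theorem g_flip (p q : ℕ) (h : 1 ≤ p ∧ p < q ∧ q ≤ 10) (m r : ℕ)
    (h' : 1 ≤ m ∧ m < r ∧ r ≤ 10) (m' r' : ℕ)
    (h'' : 1 ≤ m' ∧ m' < r' ∧ r' ≤ 10) (h1 : p ≤ m) (h2 : r ≤ q)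
    (h3 : m' + r = p + q) (h4 : r' + m = p + q) :
    g p q h * g m r h' * (g p q h)⁻¹ = g m' r' h'' := s_flip _ _ _ h1 h2 h3 h4

theorem pi_g (p q : ℕ) (h : 1 ≤ p ∧ p < q ∧ q ≤ 10) (i : ℕ) :
    piHom 10 (g p q h) i = flipFun p q i := by
  rw [g, piHom_s]; rfl

/-- The eight generators of the subgroup of order 256. -/
def T : Set (J 10) :=
  {g 1 8 (by decide), g 5 8 (by decide), g 1 4 (by decide), g 9 10 (by decide),
    g 7 8 (by decide), g 5 6 (by decide), g 3 4 (by decide), g 1 2 (by decide)}

theorem T_fin : Finite (Subgroup.closure T) ∧ 256 ≤ Nat.card (Subgroup.closure T) := by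
  have f0 : Finite (Subgroup.closure (∅ : Set (J 10))) := by
    rw [Subgroup.closure_empty]; infer_instance
  have c0 : Nat.card (Subgroup.closure (∅ : Set (J 10))) = 1 := by
    rw [Subgroup.closure_empty]; simp
  obtain ⟨f1, c1⟩ := step (piHom 10) ∅ (g 1 2 (by decide)) (g_sq _ _ _)
    (by simp) (fun i => if i ≤ 1 then 0 else 1) (by simp)
    ⟨1, by rw [pi_g]; decide⟩ f0
  obtain ⟨f2, c2⟩ := step (piHom 10) _ (g 3 4 (by decide)) (g_sq _ _ _)
    (by
      rintro y (rfl | hy)
      · exact Or.inl (g_comm _ _ _ _ _ _ (by decide))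
      · exact absurd hy (by simp)) (fun i => if i ≤ 3 then 0 else 1)
    (by
      rintro y (rfl | hy)
      · intro i; rw [pi_g]; unfold flipFun; split_ifs <;> omega
      · exact absurd hy (by simp))
    ⟨3, by rw [pi_g]; decide⟩ f1
  obtain ⟨f3, c3⟩ := step (piHom 10) _ (g 5 6 (by decide)) (g_sq _ _ _)
    (by
      rintro y (rfl | rfl | hy)
      · exact Or.inl (g_comm _ _ _ _ _ _ (by decide))
      · exact Or.inr (Or.inl (g_comm _ _ _ _ _ _ (by decide)))
      · exact absurd hy (by simp)) (fun i => if i ≤ 5 then 0 else 1)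
    (by
      rintro y (rfl | rfl | hy)
      · intro i; rw [pi_g]; unfold flipFun; split_ifs <;> omega
      · intro i; rw [pi_g]; unfold flipFun; split_ifs <;> omega
      · exact absurd hy (by simp))
    ⟨5, by rw [pi_g]; decide⟩ f2
  obtain ⟨f4, c4⟩ := step (piHom 10) _ (g 7 8 (by decide)) (g_sq _ _ _)
    (by
      rintro y (rfl | rfl | rfl | hy)
      · exact Or.inl (g_comm _ _ _ _ _ _ (by decide))
      · exact Or.inr (Or.inl (g_comm _ _ _ _ _ _ (by decide)))
      · exact Or.inr (Or.inr (Or.inl (g_comm _ _ _ _ _ _ (by decide))))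
      · exact absurd hy (by simp)) (fun i => if i ≤ 7 then 0 else 1)
    (by
      rintro y (rfl | rfl | rfl | hy)
      · intro i; rw [pi_g]; unfold flipFun; split_ifs <;> omega
      · intro i; rw [pi_g]; unfold flipFun; split_ifs <;> omega
      · intro i; rw [pi_g]; unfold flipFun; split_ifs <;> omega
      · exact absurd hy (by simp))
    ⟨7, by rw [pi_g]; decide⟩ f3
  obtain ⟨f5, c5⟩ := step (piHom 10) _ (g 9 10 (by decide)) (g_sq _ _ _)
    (by
      rintro y (rfl | rfl | rfl | rfl | hy)
      · exact Or.inl (g_comm _ _ _ _ _ _ (by decide))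
      · exact Or.inr (Or.inl (g_comm _ _ _ _ _ _ (by decide)))
      · exact Or.inr (Or.inr (Or.inl (g_comm _ _ _ _ _ _ (by decide))))
      · exact Or.inr (Or.inr (Or.inr (Or.inl (g_comm _ _ _ _ _ _ (by decide)))))
      · exact absurd hy (by simp)) (fun i => if i ≤ 9 then 0 else 1)
    (by
      rintro y (rfl | rfl | rfl | rfl | hy)
      · intro i; rw [pi_g]; unfold flipFun; split_ifs <;> omega
      · intro i; rw [pi_g]; unfold flipFun; split_ifs <;> omega
      · intro i; rw [pi_g]; unfold flipFun; split_ifs <;> omega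
      · intro i; rw [pi_g]; unfold flipFun; split_ifs <;> omega
      · exact absurd hy (by simp))
    ⟨9, by rw [pi_g]; decide⟩ f4
  obtain ⟨f6, c6⟩ := step (piHom 10) _ (g 1 4 (by decide)) (g_sq _ _ _)
    (by
      rintro y (rfl | rfl | rfl | rfl | rfl | hy)
      · exact Or.inl (g_comm _ _ _ _ _ _ (by decide))
      · exact Or.inr (Or.inl (g_comm _ _ _ _ _ _ (by decide)))
      · exact Or.inr (Or.inr (Or.inl (g_comm _ _ _ _ _ _ (by decide))))
      · exact Or.inr (Or.inr (Or.inr (Or.inr
          (Or.inl (g_flip _ _ _ _ _ _ 1 2 _ (by decide) (by decide) (by decide) (by decide))))))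
      · exact Or.inr (Or.inr (Or.inr (Or.inl
          (g_flip _ _ _ _ _ _ 3 4 _ (by decide) (by decide) (by decide) (by decide)))))
      · exact absurd hy (by simp)) (fun i => if i ≤ 2 then 0 else 1)
    (by
      rintro y (rfl | rfl | rfl | rfl | rfl | hy)
      · intro i; rw [pi_g]; unfold flipFun; split_ifs <;> omega
      · intro i; rw [pi_g]; unfold flipFun; split_ifs <;> omega
      · intro i; rw [pi_g]; unfold flipFun; split_ifs <;> omega
      · intro i; rw [pi_g]; unfold flipFun; split_ifs <;> omega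
      · intro i; rw [pi_g]; unfold flipFun; split_ifs <;> omega
      · exact absurd hy (by simp))
    ⟨1, by rw [pi_g]; decide⟩ f5
  obtain ⟨f7, c7⟩ := step (piHom 10) _ (g 5 8 (by decide)) (g_sq _ _ _)
    (by
      rintro y (rfl | rfl | rfl | rfl | rfl | rfl | hy)
      · exact Or.inl (g_comm _ _ _ _ _ _ (by decide))
      · exact Or.inr (Or.inl (g_comm _ _ _ _ _ _ (by decide)))
      · exact Or.inr (Or.inr (Or.inr
          (Or.inl (g_flip _ _ _ _ _ _ 5 6 _ (by decide) (by decide) (by decide) (by decide)))))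
      · exact Or.inr (Or.inr (Or.inl
          (g_flip _ _ _ _ _ _ 7 8 _ (by decide) (by decide) (by decide) (by decide))))
      · exact Or.inr (Or.inr (Or.inr (Or.inr
          (Or.inl (g_comm _ _ _ _ _ _ (by decide))))))
      · exact Or.inr (Or.inr (Or.inr (Or.inr (Or.inr
          (Or.inl (g_comm _ _ _ _ _ _ (by decide)))))))
      · exact absurd hy (by simp)) (fun i => if i ≤ 6 then 0 else 1)
    (by
      rintro y (rfl | rfl | rfl | rfl | rfl | rfl | hy)
      · intro i; rw [pi_g]; unfold flipFun; split_ifs <;> omega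
      · intro i; rw [pi_g]; unfold flipFun; split_ifs <;> omega
      · intro i; rw [pi_g]; unfold flipFun; split_ifs <;> omega
      · intro i; rw [pi_g]; unfold flipFun; split_ifs <;> omega
      · intro i; rw [pi_g]; unfold flipFun; split_ifs <;> omega
      · intro i; rw [pi_g]; unfold flipFun; split_ifs <;> omega
      · exact absurd hy (by simp))
    ⟨5, by rw [pi_g]; decide⟩ f6
  obtain ⟨f8, c8⟩ := step (piHom 10) _ (g 1 8 (by decide)) (g_sq _ _ _)
    (by
      rintro y (rfl | rfl | rfl | rfl | rfl | rfl | rfl | hy)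
      · exact Or.inr (Or.inl
          (g_flip _ _ _ _ _ _ 1 4 _ (by decide) (by decide) (by decide) (by decide)))
      · exact Or.inl
          (g_flip _ _ _ _ _ _ 5 8 _ (by decide) (by decide) (by decide) (by decide))
      · exact Or.inr (Or.inr (Or.inl (g_comm _ _ _ _ _ _ (by decide))))
      · exact Or.inr (Or.inr (Or.inr (Or.inr (Or.inr (Or.inr (Or.inl
          (g_flip _ _ _ _ _ _ 1 2 _ (by decide) (by decide) (by decide) (by decide))))))))
      · exact Or.inr (Or.inr (Or.inr (Or.inr (Or.inr (Or.inl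
          (g_flip _ _ _ _ _ _ 3 4 _ (by decide) (by decide) (by decide) (by decide)))))))
      · exact Or.inr (Or.inr (Or.inr (Or.inr (Or.inl
          (g_flip _ _ _ _ _ _ 5 6 _ (by decide) (by decide) (by decide) (by decide))))))
      · exact Or.inr (Or.inr (Or.inr (Or.inl
          (g_flip _ _ _ _ _ _ 7 8 _ (by decide) (by decide) (by decide) (by decide)))))
      · exact absurd hy (by simp)) (fun i => if i ≤ 4 then 0 else 1)
    (by
      rintro y (rfl | rfl | rfl | rfl | rfl | rfl | rfl | hy)
      · intro i; rw [pi_g]; unfold flipFun; split_ifs <;> omega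
      · intro i; rw [pi_g]; unfold flipFun; split_ifs <;> omega
      · intro i; rw [pi_g]; unfold flipFun; split_ifs <;> omega
      · intro i; rw [pi_g]; unfold flipFun; split_ifs <;> omega
      · intro i; rw [pi_g]; unfold flipFun; split_ifs <;> omega
      · intro i; rw [pi_g]; unfold flipFun; split_ifs <;> omega
      · intro i; rw [pi_g]; unfold flipFun; split_ifs <;> omega
      · exact absurd hy (by simp))
    ⟨1, by rw [pi_g]; decide⟩ f7
  have hT : T = insert (g 1 8 (by decide)) (insert (g 5 8 (by decide)) (insert (g 1 4 (by decide))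
      (insert (g 9 10 (by decide)) (insert (g 7 8 (by decide)) (insert (g 5 6 (by decide))
      (insert (g 3 4 (by decide)) (insert (g 1 2 (by decide)) ∅))))))) := by
    unfold T
    congr 7
    simp
  rw [hT]
  refine ⟨f8, ?_⟩
  omega

theorem result :
    ¬ ∀ n : ℕ, 2 ≤ n → ∀ (G : Type) [Group G] [Finite G],
      (∃ f : G →* J n, Function.Injective f) ↔
        ∃ l : List ℕ, (∀ r ∈ l, 2 ≤ r) ∧ 2 * l.prod ≤ n ∧
          ∃ f : G →* W l, Function.Injective f := by
  intro H
  obtain ⟨hfin, hcard⟩ := T_fin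
  have h := (H 10 (by norm_num) (Subgroup.closure T)).1
    ⟨(Subgroup.closure T).subtype, Subtype.val_injective⟩
  obtain ⟨l, hl, hp, f, hf⟩ := h
  have hW := card_W l
  have hfinW : Finite (W l) := Nat.finite_of_card_ne_zero (by rw [hW]; positivity)
  have h1 := Nat.card_le_card_of_injective f hf
  have h2 : ee l ≤ 7 := ee_le l hl (by omega)
  have h3 : (2 : ℕ) ^ ee l ≤ 2 ^ 7 := Nat.pow_le_pow_right (by norm_num) h2
  omega

end Pool.Agent.Results.MP_2b0b8a_al.CactusTen
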